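import Pool.Agent.H630GI.Rand

/-! The pairs of graphs on `Fin N` (helper630) -/

open scoped Classical
open Finset

namespace H630GI

open H630VC H630XR

variable {k b K : ℕ}

/-- the pair of graphs of a formula -/
noncomputable def enc {s N : ℕ} (e : Fin s ⊕ (Pt k b ⊕ Qt k b K) ≃ Fin N) (F : BF k b K) :
    SimpleGraph (Fin N) × SimpleGraph (Fin N) :=
  ((pad s (db b K) tc (gr 0 F)).comap e.symm, (pad s (db b K) tc (gr vl F)).comap e.symm)

theorem enc_sat (hK : 1 ≤ K) {s N : ℕ} (e : Fin s ⊕ (Pt k b ⊕ Qt k b K) ≃ Fin N)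
    (hs : Fintype.card (Co k b K) * (db b K + 1) < s) (F : BF k b K)
    (h : Nonempty ((enc e F).1 ≃g (enc e F).2)) (i : Fin k) :
    ∃ z : Fin b → Bool, ∀ c ∈ F i, OddSat z c := by
  obtain ⟨φ⟩ := h
  obtain ⟨ψ, h1, h2⟩ := pad_iso tc _ tc_lt hs _ _ (fun x => dg_gr _ F x) (fun x => dg_gr _ F x)
    (((SimpleGraph.Iso.comap e.symm _).symm.trans φ).trans (SimpleGraph.Iso.comap e.symm _))
  exact sat_of_hom hK F ψ (fun x => tc_inj (h1 x)) h2 i

theorem enc_iso {s N : ℕ} (e : Fin s ⊕ (Pt k b ⊕ Qt k b K) ≃ Fin N) (F : BF k b K)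
    (z : Fin k → Fin b → Bool) (hz : ∀ i, ∀ c ∈ F i, OddSat (z i) c) :
    Nonempty ((enc e F).1 ≃g (enc e F).2) := by
  obtain ⟨ψ, h1, h2⟩ := iso_of_sat F z hz
  obtain ⟨φ⟩ := iso_pad (s := s) (d := db b K) tc (gr 0 F) (gr vl F) ψ
    (fun x => by unfold tc; rw [h1]) h2
  exact ⟨((SimpleGraph.Iso.comap e.symm _).trans φ).trans (SimpleGraph.Iso.comap e.symm _).symm⟩

/-- the adjacency bits are constant or tell whether a clause belongs to a block -/
theorem bit_inputs (w : Cl (Fin b) K → ZMod 2) {s d : ℕ}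
    (u v : Fin s ⊕ (Pt k b ⊕ Qt k b K)) :
    (fun F : BF k b K => if (pad s d tc (gr w F)).Adj u v then (1 : ℝ) else 0) ∈
      blkInputs k b K := by
  have hc : ∀ p : Prop, (fun _ : BF k b K => if p then (1 : ℝ) else 0) ∈ blkInputs k b K :=
    fun p => Or.inr ⟨_, rfl⟩
  have key : ∀ (p : Pt k b) (q : Qt k b K),
      (fun F : BF k b K => if rl w F p q then (1 : ℝ) else 0) ∈ blkInputs k b K := by
    intro p q
    by_cases h : p.1 = q.1 ∧ par q.2.2 = w q.2.1 ∧ (∃ j, (q.2.1 j).1 = p.2.1) ∧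
      ∀ j, (q.2.1 j).1 = p.2.1 → q.2.2 j = p.2.2
    · refine Or.inl ⟨q.1, q.2.1, ?_⟩
      funext F
      have e : rl w F p q ↔ q.2.1 ∈ F q.1 := ⟨fun h' => h'.1, fun h' => ⟨h', h⟩⟩
      by_cases h' : q.2.1 ∈ F q.1
      · rw [if_pos h', if_pos (e.2 h')]
      · rw [if_neg h', if_neg fun h'' => h' (e.1 h'')]
    · have e : ∀ F, ¬ rl w F p q := fun F h' => h h'.2
      have : (fun F : BF k b K => if rl w F p q then (1 : ℝ) else 0) = fun _ => 0 := by
        funext F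
        rw [if_neg (e F)]
      rw [this]
      exact Or.inr ⟨0, rfl⟩
  rcases u with a | (p | q) <;> rcases v with a' | (p' | q')
  · exact hc (a ≠ a')
  · exact hc (a.val < tc (Sum.inl p' : Pt k b ⊕ Qt k b K) * (d + 1))
  · exact hc (a.val < tc (Sum.inr q' : Pt k b ⊕ Qt k b K) * (d + 1))
  · exact hc (a'.val < tc (Sum.inl p : Pt k b ⊕ Qt k b K) * (d + 1))
  · exact hc False
  · exact key p q'
  · exact hc (a'.val < tc (Sum.inr q : Pt k b ⊕ Qt k b K) * (d + 1))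
  · exact key p' q
  · exact hc False

theorem enc_inputs {s N : ℕ} (e : Fin s ⊕ (Pt k b ⊕ Qt k b K) ≃ Fin N)
    (f : SimpleGraph (Fin N) × SimpleGraph (Fin N) → ℝ) (hf : f ∈ pairInputs (Fin N)) :
    (fun F => f (enc e F)) ∈ blkInputs k b K := by
  rcases hf with ⟨u, v, rfl⟩ | ⟨u, v, rfl⟩ | ⟨c, rfl⟩
  · exact bit_inputs 0 (e.symm u) (e.symm v)
  · exact bit_inputs vl (e.symm u) (e.symm v)
  · exact Or.inr ⟨c, rfl⟩

theorem combos_map {I J : Type*} (ψ : J → I) (q : List (List ((I → ℝ) × ℝ))) :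
    combos (q.map fun w => w.map fun p => ((fun x => p.1 (ψ x)), p.2)) = combos q := by
  unfold combos
  congr 1
  rw [List.map_map]
  apply List.map_congr_left
  intro w _
  simp

/-- the walk on pairs of graphs -/
theorem iso_walk (hK : 1 ≤ K) (hb : 1 ≤ b) (κ S ξ P : ℝ) (m N : ℕ)
    (hd : ∀ l : List (Finset (Cl (Fin b) K) → ℝ), Prog (cnfInputs (Fin b) K) l →
      (l.length : ℝ) ≤ S → ∀ f ∈ l,
      avg (fun ω : Fin m → Cl (Fin b) K => ind (1 ≤ f (univ.image ω))) ≤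
        κ + avg fun z : Fin b → Bool => ind (1 ≤ f (oddFormula z)))
    (hN : Fintype.card (Co k b K) * (db b K + 1) + Fintype.card (Pt k b ⊕ Qt k b K) < N)
    {R : Type*} [Fintype R] [Nonempty R]
    (f : R → SimpleGraph (Fin N) × SimpleGraph (Fin N) → ℝ)
    (l : R → List (SimpleGraph (Fin N) × SimpleGraph (Fin N) → ℝ))
    (q : R → List (List ((SimpleGraph (Fin N) × SimpleGraph (Fin N) → ℝ) × ℝ)))
    (hp : ∀ r, FProg (pairInputs (Fin N)) (l r) (q r)) (hf : ∀ r, f r ∈ l r)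
    (hdec : DecidesIso ξ f) (hξ0 : 0 ≤ 1 / 2 + ξ)
    (hsize : ∀ r, (((l r).length + wires (q r) + 2 : ℕ) : ℝ) ≤ S)
    (hP : ∀ r, (combos (q r) : ℝ) ≤ P) :
    k * (2 * ξ) ≤ k * κ + P + k * (2 ^ b / 2 ^ m) := by
  obtain ⟨s, hs⟩ : ∃ s, s + Fintype.card (Pt k b ⊕ Qt k b K) = N :=
    ⟨N - Fintype.card (Pt k b ⊕ Qt k b K), by omega⟩
  have hcard : Fintype.card (Fin s ⊕ (Pt k b ⊕ Qt k b K)) = Fintype.card (Fin N) := by
    rw [Fintype.card_sum, Fintype.card_fin, Fintype.card_fin, hs]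
  let e : Fin s ⊕ (Pt k b ⊕ Qt k b K) ≃ Fin N := Fintype.equivOfCardEq hcard
  have hs2 : Fintype.card (Co k b K) * (db b K + 1) < s := by omega
  have hne : Nonempty (Fin m → Cl (Fin b) K) := ⟨fun _ _ => (⟨0, hb⟩, true)⟩
  have hR : (0 : ℝ) < Fintype.card R := by exact_mod_cast Fintype.card_pos
  refine walk_rand κ S (2 ^ b / 2 ^ m) ξ P m
    (fun F => ¬ ∃ z : Fin b → Bool, ∀ c ∈ F, OddSat z c) hd
    (fun r F => f r (enc e F)) (fun r => (l r).map fun f => fun F => f (enc e F))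
    (fun r => (q r).map fun w => w.map fun p => ((fun x => p.1 (enc e x)), p.2))
    (fun r => FProg.comap (enc e) (enc_inputs e) (hp r))
    (fun r => List.mem_map.2 ⟨f r, hf r, rfl⟩) ?_ ?_ ?_ hξ0 (by positivity)
    (avg_sat hK hb m) ?_ ?_
  · intro r
    rw [List.length_map, wires_map]
    exact hsize r
  · intro r
    rw [combos_map]
    exact hP r
  · have h1 := (hdec ⊥ ⊥).1 ⟨SimpleGraph.Iso.refl⟩
    have h2 : (((univ.filter fun r => f r (⊥, ⊥) < 1).card : ℕ) : ℝ) ≤ Fintype.card R := by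
      have := card_le_univ (univ.filter fun r => f r (⊥, ⊥) < 1)
      exact_mod_cast this
    have h3 : (1 / 2 + ξ) * Fintype.card R ≤ 1 * (Fintype.card R : ℝ) := by
      rw [one_mul]
      exact h1.trans h2
    exact le_of_mul_le_mul_right h3 hR
  · intro y i F hF
    refine (hdec _ _).2 fun hiso => hF ?_
    have h1 := enc_sat hK e hs2 (upd y i F) hiso i
    have h2 : (upd y i F : BF k b K) i = F := by simp [upd]
    rw [h2] at h1
    exact h1
  · intro y i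
    refine (hdec _ _).1 (enc_iso e _ y fun j c hc => ?_)
    unfold ctx at hc
    by_cases hj : j.1 < i.1 + 1
    · rw [if_pos hj] at hc
      exact (mem_filter.1 hc).2
    · rw [if_neg hj] at hc
      exact absurd hc (Finset.notMem_empty c)

end H630GI
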