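import Pool.Agent.H630VC.FreeModel

/-! Circuits on pairs of graphs: the definitions (helper630) -/

open scoped Classical
open Finset

namespace H630GI

open H630VC

/-- the inputs of the circuits on pairs of graphs: the adjacency bits of both graphs, and real
constants -/
def pairInputs (V : Type*) : Set (SimpleGraph V × SimpleGraph V → ℝ) :=
  {f | (∃ u v : V, f = fun x => if x.1.Adj u v then 1 else 0) ∨
    (∃ u v : V, f = fun x => if x.2.Adj u v then 1 else 0) ∨ ∃ c : ℝ, f = fun _ => c}

/-- the family `f r`, `r ∈ R`, of functions decides isomorphism with advantage `ξ`: on every pair of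
graphs at least a fraction `1/2 + ξ` of the values is right, that is less than one if the graphs are
isomorphic and at least one otherwise -/
def DecidesIso {V R : Type*} [Fintype R] (ξ : ℝ) (f : R → SimpleGraph V × SimpleGraph V → ℝ) :
    Prop :=
  ∀ G H : SimpleGraph V, (Nonempty (G ≃g H) →
      (1 / 2 + ξ) * Fintype.card R ≤ (univ.filter fun r => f r (G, H) < 1).card) ∧
    (¬ Nonempty (G ≃g H) →
      (1 / 2 + ξ) * Fintype.card R ≤ (univ.filter fun r => 1 ≤ f r (G, H)).card)

end H630GI
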