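import Pool.Agent.H630GI.Model

/-! Colours by degrees (helper630) -/

open scoped Classical
open Finset

namespace H630GI

section pad

variable {X : Type*} {s d : ℕ}

/-- the graph `G` with a clique on `Fin s`; the vertex `x` of `G` is joined to the first
`t x * (d + 1)` vertices of the clique -/
def pad (s d : ℕ) (t : X → ℕ) (G : SimpleGraph X) : SimpleGraph (Fin s ⊕ X) where
  Adj u v := match u, v with
    | .inl a, .inl a' => a ≠ a'
    | .inl a, .inr x => a.val < t x * (d + 1)
    | .inr x, .inl a => a.val < t x * (d + 1)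
    | .inr x, .inr x' => G.Adj x x'
  symm := ⟨by
    rintro (a | x) (a' | x') h
    · exact Ne.symm h
    · exact h
    · exact h
    · exact G.adj_symm h⟩
  loopless := ⟨by
    rintro (a | x) h
    · exact h rfl
    · exact G.loopless.irrefl x h⟩

/-- the number of neighbours -/
noncomputable def dg {V : Type*} [Fintype V] (G : SimpleGraph V) (u : V) : ℕ :=
  (univ.filter fun w => G.Adj u w).card

theorem dg_iso {V W : Type*} [Fintype V] [Fintype W] {G : SimpleGraph V} {H : SimpleGraph W}
    (φ : G ≃g H) (u : V) : dg H (φ u) = dg G u := by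
  unfold dg
  symm
  apply Finset.card_bij (fun w _ => φ w)
  · intro w hw
    exact mem_filter.2 ⟨mem_univ _, φ.map_adj_iff.2 (mem_filter.1 hw).2⟩
  · intro w _ w' _ h
    exact φ.injective h
  · intro w hw
    refine ⟨φ.symm w, mem_filter.2 ⟨mem_univ _, ?_⟩, by simp⟩
    have := (mem_filter.1 hw).2
    rw [← φ.map_adj_iff]
    simpa using this

theorem card_lt_val (m : ℕ) (hm : m ≤ s) [DecidablePred fun a : Fin s => a.val < m] : (univ.filter fun a : Fin s => a.val < m).card = m := by
  have : (univ.filter fun a : Fin s => a.val < m) =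
      (univ : Finset (Fin m)).map (Fin.castLEEmb hm) := by
    ext a
    simp only [mem_filter, mem_univ, true_and, mem_map]
    constructor
    · intro h
      exact ⟨⟨a.val, h⟩, rfl⟩
    · rintro ⟨b, rfl⟩
      exact b.2
  rw [this, card_map, card_univ, Fintype.card_fin]

theorem dg_inl [Fintype X] (t : X → ℕ) (G : SimpleGraph X) (a : Fin s) :
    s ≤ dg (pad s d t G) (Sum.inl a) + 1 := by
  unfold dg
  have h : ((univ : Finset (Fin s)).erase a).map ⟨Sum.inl, Sum.inl_injective⟩ ⊆
      univ.filter fun w => (pad s d t G).Adj (Sum.inl a) w := by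
    intro w hw
    obtain ⟨a', ha', rfl⟩ := mem_map.1 hw
    exact mem_filter.2 ⟨mem_univ _, (Finset.ne_of_mem_erase ha').symm⟩
  have h2 := card_le_card h
  rw [card_map, card_erase_of_mem (mem_univ _), card_univ, Fintype.card_fin] at h2
  omega

theorem dg_inr [Fintype X] (t : X → ℕ) (G : SimpleGraph X) (x : X) (hx : t x * (d + 1) ≤ s) :
    dg (pad s d t G) (Sum.inr x) = t x * (d + 1) + dg G x := by
  unfold dg
  rw [card_filter, Fintype.sum_sum_type, ← card_filter, ← card_filter]
  congr 1
  refine (congrArg card ?_).trans (card_lt_val (t x * (d + 1)) hx)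
  ext a
  simp only [mem_filter, mem_univ, true_and]
  exact Iff.rfl

/-- isomorphisms of the padded graphs respect the colours -/
theorem pad_iso [Fintype X] (t : X → ℕ) (T : ℕ) (ht : ∀ x, t x < T) (hs : T * (d + 1) < s)
    (G H : SimpleGraph X) (hG : ∀ x, dg G x ≤ d) (hH : ∀ x, dg H x ≤ d)
    (φ : pad s d t G ≃g pad s d t H) :
    ∃ ψ : X → X, (∀ x, t (ψ x) = t x) ∧ ∀ x x', G.Adj x x' → H.Adj (ψ x) (ψ x') := by
  have hts : ∀ x, t x * (d + 1) + d < T * (d + 1) := by
    intro x
    have : (t x + 1) * (d + 1) ≤ T * (d + 1) := Nat.mul_le_mul_right _ (ht x)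
    have e : (t x + 1) * (d + 1) = t x * (d + 1) + d + 1 := by ring
    omega
  have hex : ∀ x : X, ∃ x' : X, φ (Sum.inr x) = Sum.inr x' := by
    intro x
    rcases h : φ (Sum.inr x) with a | x'
    · exfalso
      have h1 := dg_iso φ (Sum.inr x)
      rw [h, dg_inr t G x (by have := hts x; omega)] at h1
      have h2 := dg_inl (d := d) t H a
      have h3 := hts x
      have h4 := hG x
      omega
    · exact ⟨x', rfl⟩
  choose ψ hψ using hex
  refine ⟨ψ, fun x => ?_, fun x x' h => ?_⟩
  · have h1 := dg_iso φ (Sum.inr x)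
    rw [hψ x, dg_inr t G x (by have := hts x; omega),
      dg_inr t H (ψ x) (by have := hts (ψ x); omega)] at h1
    have h4 := hG x
    have h5 := hH (ψ x)
    by_contra hne
    rcases Nat.lt_or_gt_of_ne hne with hlt | hlt
    · have : (t (ψ x) + 1) * (d + 1) ≤ t x * (d + 1) := Nat.mul_le_mul_right _ hlt
      have e : (t (ψ x) + 1) * (d + 1) = t (ψ x) * (d + 1) + d + 1 := by ring
      omega
    · have : (t x + 1) * (d + 1) ≤ t (ψ x) * (d + 1) := Nat.mul_le_mul_right _ hlt
      have e : (t x + 1) * (d + 1) = t x * (d + 1) + d + 1 := by ring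
      omega
  · have h1 : (pad s d t H).Adj (φ (Sum.inr x)) (φ (Sum.inr x')) := φ.map_adj_iff.2 h
    rw [hψ, hψ] at h1
    exact h1

/-- isomorphisms that respect the colours extend to the padded graphs -/
theorem iso_pad (t : X → ℕ) (G H : SimpleGraph X) (ψ : X ≃ X) (hψ : ∀ x, t (ψ x) = t x)
    (h : ∀ x x', H.Adj (ψ x) (ψ x') ↔ G.Adj x x') :
    Nonempty (pad s d t G ≃g pad s d t H) := by
  refine ⟨⟨Equiv.sumCongr (Equiv.refl _) ψ, ?_⟩⟩
  rintro (a | x) (a' | x')
  · exact Iff.rfl
  · change a.val < t (ψ x') * (d + 1) ↔ a.val < t x' * (d + 1)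
    rw [hψ]
  · change a'.val < t (ψ x) * (d + 1) ↔ a'.val < t x * (d + 1)
    rw [hψ]
  · exact h x x'

end pad

end H630GI
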