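import Pool.Agent.H630GI.Red

/-! Randomised circuits and the block walk (helper630) -/

open scoped Classical
open Finset

namespace H630GI

open H630VC H630XR

variable {k b K : ℕ}

/-- the walk, for randomised circuits -/
theorem walk_rand (κ S β ξ P : ℝ) (m : ℕ) (U : Finset (Cl (Fin b) K) → Prop)
    [Nonempty (Fin m → Cl (Fin b) K)]
    (hd : ∀ l : List (Finset (Cl (Fin b) K) → ℝ), Prog (cnfInputs (Fin b) K) l →
      (l.length : ℝ) ≤ S → ∀ f ∈ l,
      avg (fun ω : Fin m → Cl (Fin b) K => ind (1 ≤ f (univ.image ω))) ≤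
        κ + avg fun z : Fin b → Bool => ind (1 ≤ f (oddFormula z)))
    {R : Type*} [Fintype R] [Nonempty R] (g : R → BF k b K → ℝ) (l : R → List (BF k b K → ℝ))
    (q : R → List (List ((BF k b K → ℝ) × ℝ)))
    (hp : ∀ r, FProg (blkInputs k b K) (l r) (q r)) (hg : ∀ r, g r ∈ l r)
    (hsize : ∀ r, (((l r).length + wires (q r) + 2 : ℕ) : ℝ) ≤ S)
    (hP : ∀ r, (combos (q r) : ℝ) ≤ P) (hξ : 1 / 2 + ξ ≤ 1) (hξ0 : 0 ≤ 1 / 2 + ξ)
    (hβ0 : 0 ≤ β)
    (hβ : avg (fun ω : Fin m → Cl (Fin b) K => ind (¬ U (univ.image ω))) ≤ β)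
    (hyes : ∀ (y : Fin k → Fin b → Bool) (i : Fin k) (F : Finset (Cl (Fin b) K)), U F →
      (1 / 2 + ξ) * Fintype.card R ≤ ((univ.filter fun r => 1 ≤ g r (upd y i F)).card : ℝ))
    (hno : ∀ (y : Fin k → Fin b → Bool) (i : Fin k),
      (1 / 2 + ξ) * Fintype.card R ≤
        ((univ.filter fun r => g r (ctx y (i.1 + 1)) < 1).card : ℝ)) :
    k * (2 * ξ) ≤ k * κ + P + k * β := by
  have hR : (0 : ℝ) < Fintype.card R := by exact_mod_cast Fintype.card_pos
  -- the sum over the circuits of the walks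
  have h1 := Finset.sum_le_sum fun r (_ : r ∈ (univ : Finset R)) =>
    walk_one κ S m hd (hp r) (hg r) (hsize r)
  -- the left-hand side
  have hA : ∀ i : Fin k, (1 / 2 + ξ) * Fintype.card R * (1 - β) ≤
      ∑ r : R, avg (fun y : Fin k → Fin b → Bool =>
        avg (fun ω : Fin m → Cl (Fin b) K => ind (1 ≤ g r (upd y i (univ.image ω))))) := by
    intro i
    rw [← avg_sum]
    have h2 : ∀ y : Fin k → Fin b → Bool, (1 / 2 + ξ) * Fintype.card R * (1 - β) ≤
        ∑ r : R, avg (fun ω : Fin m → Cl (Fin b) K =>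
          ind (1 ≤ g r (upd y i (univ.image ω)))) := by
      intro y
      rw [← avg_sum]
      have h3 : ∀ ω : Fin m → Cl (Fin b) K, (1 / 2 + ξ) * Fintype.card R +
          (-((1 / 2 + ξ) * Fintype.card R)) * ind (¬ U (univ.image ω)) ≤
          ∑ r : R, ind (1 ≤ g r (upd y i (univ.image ω))) := by
        intro ω
        rw [← card_ind]
        by_cases hU : U (univ.image ω)
        · have : ind (¬ U (univ.image ω)) = 0 := if_neg (not_not.2 hU)
          rw [this]
          have := hyes y i _ hU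
          linarith
        · have : ind (¬ U (univ.image ω)) = 1 := if_pos hU
          rw [this]
          have h0 : (0 : ℝ) ≤ ((univ.filter fun r => 1 ≤ g r (upd y i (univ.image ω))).card : ℝ) :=
            Nat.cast_nonneg _
          linarith
      refine le_trans ?_ (avg_mono h3)
      rw [avg_add, avg_const, avg_mul]
      have h4 : 0 ≤ (1 / 2 + ξ) * Fintype.card R := by positivity
      nlinarith
    calc (1 / 2 + ξ) * Fintype.card R * (1 - β)
        = avg (fun _ : Fin k → Fin b → Bool => (1 / 2 + ξ) * Fintype.card R * (1 - β)) :=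
          (avg_const _).symm
      _ ≤ _ := avg_mono h2
  have hB : ∀ i : Fin k, ∑ r : R, avg (fun y : Fin k → Fin b → Bool =>
        ind (1 ≤ g r (ctx y (i.1 + 1)))) ≤ (1 / 2 - ξ) * Fintype.card R := by
    intro i
    rw [← avg_sum]
    have h2 : ∀ y : Fin k → Fin b → Bool,
        ∑ r : R, ind (1 ≤ g r (ctx y (i.1 + 1))) ≤ (1 / 2 - ξ) * Fintype.card R := by
      intro y
      rw [← card_ind]
      have h3 := hno y i
      have h4 : (univ.filter fun r => g r (ctx y (i.1 + 1)) < 1).card +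
          (univ.filter fun r => 1 ≤ g r (ctx y (i.1 + 1))).card = Fintype.card R := by
        have h5 := card_filter_add_card_filter_not (s := (univ : Finset R))
          (fun r => g r (ctx y (i.1 + 1)) < 1)
        simp only [not_lt] at h5
        rw [card_univ] at h5
        exact h5
      have h6 : (((univ.filter fun r => g r (ctx y (i.1 + 1)) < 1).card : ℕ) : ℝ) +
          ((univ.filter fun r => 1 ≤ g r (ctx y (i.1 + 1))).card : ℝ) = Fintype.card R := by
        exact_mod_cast h4
      linarith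
    calc _ ≤ avg (fun _ : Fin k → Fin b → Bool => (1 / 2 - ξ) * (Fintype.card R : ℝ)) :=
          avg_mono h2
      _ = _ := avg_const _
  rw [Finset.sum_comm] at h1
  have h2 : ∑ r : R, ((k : ℝ) * κ + combos (q r) + ∑ i : Fin k,
      avg (fun y : Fin k → Fin b → Bool => ind (1 ≤ g r (ctx y (i.1 + 1))))) ≤
      Fintype.card R * (k * κ + P) + k * ((1 / 2 - ξ) * Fintype.card R) := by
    rw [Finset.sum_add_distrib]
    refine add_le_add ?_ ?_
    · calc ∑ r : R, ((k : ℝ) * κ + combos (q r)) ≤ ∑ _r : R, ((k : ℝ) * κ + P) :=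
            Finset.sum_le_sum fun r _ => by have := hP r; linarith
        _ = _ := by rw [sum_const, card_univ, nsmul_eq_mul]
    · rw [Finset.sum_comm]
      calc _ ≤ ∑ _i : Fin k, (1 / 2 - ξ) * (Fintype.card R : ℝ) :=
            Finset.sum_le_sum fun i _ => hB i
        _ = _ := by rw [sum_const, card_univ, nsmul_eq_mul, Fintype.card_fin]
  have h3 : (k : ℝ) * ((1 / 2 + ξ) * Fintype.card R * (1 - β)) ≤
      ∑ i : Fin k, ∑ r : R, avg (fun y : Fin k → Fin b → Bool =>
        avg (fun ω : Fin m → Cl (Fin b) K => ind (1 ≤ g r (upd y i (univ.image ω))))) := by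
    calc (k : ℝ) * ((1 / 2 + ξ) * Fintype.card R * (1 - β))
        = ∑ _i : Fin k, (1 / 2 + ξ) * Fintype.card R * (1 - β) := by
          rw [sum_const, card_univ, nsmul_eq_mul, Fintype.card_fin]
      _ ≤ _ := Finset.sum_le_sum fun i _ => hA i
  have h4 := (h3.trans h1).trans h2
  have h5 : (Fintype.card R : ℝ) * ((k : ℝ) * ((1 / 2 + ξ) * (1 - β))) ≤
      Fintype.card R * (k * κ + P + k * (1 / 2 - ξ)) := by
    calc _ = (k : ℝ) * ((1 / 2 + ξ) * Fintype.card R * (1 - β)) := by ring
      _ ≤ _ := h4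
      _ = _ := by ring
  have h6 := le_of_mul_le_mul_left h5 hR
  have hk0 : (0 : ℝ) ≤ k := Nat.cast_nonneg _
  have h7 : (k : ℝ) * ((1 / 2 + ξ) * β) ≤ k * β := by
    apply mul_le_mul_of_nonneg_left _ hk0
    nlinarith
  nlinarith

/-- the sign of the first literal flipped -/
def flip0 (hK : 1 ≤ K) (c : Cl (Fin b) K) : Cl (Fin b) K := fun j =>
  ((c j).1, if j = ⟨0, hK⟩ then !(c j).2 else (c j).2)

theorem oddSat_flip0 (hK : 1 ≤ K) (x : Fin b → Bool) (c : Cl (Fin b) K) :
    OddSat x (flip0 hK c) ↔ ¬ OddSat x c := by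
  rw [oddSat_iff, oddSat_iff]
  have h1 : vl (flip0 hK c) = vl c + 1 := by
    unfold vl flip0
    have h2 : ∀ j : Fin K, bz (if j = ⟨0, hK⟩ then !(c j).2 else (c j).2) =
        bz (c j).2 + if j = ⟨0, hK⟩ then 1 else 0 := by
      intro j
      by_cases hj : j = ⟨0, hK⟩
      · rw [if_pos hj, if_pos hj]
        cases (c j).2 <;> decide
      · rw [if_neg hj, if_neg hj, add_zero]
    simp only [h2]
    rw [sum_add_distrib, Finset.sum_ite_eq' univ (⟨0, hK⟩ : Fin K) fun _ => (1 : ZMod 2)]
    simp only [mem_univ, if_true]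
    ring
  rw [h1]
  have h3 : ∀ p q : ZMod 2, p = q + 1 ↔ ¬ p = q := by decide
  exact h3 _ _

theorem flip0_flip0 (hK : 1 ≤ K) (c : Cl (Fin b) K) : flip0 hK (flip0 hK c) = c := by
  funext j
  unfold flip0
  by_cases hj : j = ⟨0, hK⟩
  · simp [hj]
  · simp [hj]

theorem card_oddSat (hK : 1 ≤ K) (x : Fin b → Bool) :
    2 * (univ.filter fun c : Cl (Fin b) K => OddSat x c).card ≤ Fintype.card (Cl (Fin b) K) := by
  have h1 : (univ.filter fun c : Cl (Fin b) K => OddSat x c).card ≤
      (univ.filter fun c : Cl (Fin b) K => ¬ OddSat x c).card := by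
    apply card_le_card_of_injOn (flip0 hK)
    · intro c hc
      have hc := (mem_filter.1 (mem_coe.1 hc)).2
      refine mem_coe.2 (mem_filter.2 ⟨mem_univ _, ?_⟩)
      rw [oddSat_flip0]
      exact not_not.2 hc
    · intro c _ c' _ h
      rw [← flip0_flip0 hK c, ← flip0_flip0 hK c', h]
  have h2 := card_filter_add_card_filter_not (s := (univ : Finset (Cl (Fin b) K)))
    (fun c => OddSat x c)
  rw [card_univ] at h2
  omega

/-- random systems have no solution -/
theorem avg_sat (hK : 1 ≤ K) (hb : 1 ≤ b) (m : ℕ) :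
    avg (fun ω : Fin m → Cl (Fin b) K => ind (¬ ¬ ∃ z : Fin b → Bool,
      ∀ c ∈ univ.image ω, OddSat z c)) ≤ 2 ^ b / 2 ^ m := by
  rw [avg_ind]
  have hD0 : 0 < (Fintype.card (Cl (Fin b) K) : ℝ) := by
    rw [card_cl]; push_cast
    have : (0 : ℝ) < b := by exact_mod_cast hb
    positivity
  have hcω : (Fintype.card (Fin m → Cl (Fin b) K) : ℝ) =
      (Fintype.card (Cl (Fin b) K) : ℝ) ^ m := by
    rw [Fintype.card_fun, Fintype.card_fin]; push_cast; rfl
  rw [hcω, div_le_div_iff₀ (by positivity) (by positivity)]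
  have h1 : (univ.filter fun ω : Fin m → Cl (Fin b) K => ¬ ¬ ∃ z : Fin b → Bool,
      ∀ c ∈ univ.image ω, OddSat z c) ⊆ (univ : Finset (Fin b → Bool)).biUnion fun z =>
        Fintype.piFinset fun _ : Fin m => univ.filter fun c : Cl (Fin b) K => OddSat z c := by
    intro ω hω
    obtain ⟨z, hz⟩ := not_not.1 (mem_filter.1 hω).2
    refine mem_biUnion.2 ⟨z, mem_univ _, Fintype.mem_piFinset.2 fun t => ?_⟩
    exact mem_filter.2 ⟨mem_univ _, hz _ (mem_image_of_mem _ (mem_univ t))⟩
  have h2 := (card_le_card h1).trans card_biUnion_le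
  have h3 : ((∑ z : Fin b → Bool, (Fintype.piFinset fun _ : Fin m =>
      univ.filter fun c : Cl (Fin b) K => OddSat z c).card : ℕ) : ℝ) * 2 ^ m ≤
      2 ^ b * (Fintype.card (Cl (Fin b) K) : ℝ) ^ m := by
    push_cast
    rw [Finset.sum_mul]
    calc _ ≤ ∑ _z : Fin b → Bool, (Fintype.card (Cl (Fin b) K) : ℝ) ^ m := by
          refine Finset.sum_le_sum fun z _ => ?_
          rw [Fintype.card_piFinset_const]
          have h4 := card_oddSat hK z
          have h5 : (2 : ℝ) * ((univ.filter fun c : Cl (Fin b) K => OddSat z c).card : ℝ) ≤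
              Fintype.card (Cl (Fin b) K) := by exact_mod_cast h4
          push_cast
          rw [← mul_pow, mul_comm]
          exact pow_le_pow_left₀ (by positivity) h5 m
      _ = _ := by
          rw [sum_const, card_univ, nsmul_eq_mul, Fintype.card_fun, Fintype.card_bool,
            Fintype.card_fin]
          push_cast
          rfl
  refine le_trans (mul_le_mul_of_nonneg_right (Nat.cast_le.2 h2) (by positivity)) h3

end H630GI
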