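import Pool.Agent.H630XR.Six
import Pool.Agent.H630VC.Avg2

/-! Random parity systems in many blocks, circuits with few further gates (helper630) -/

open scoped Classical
open Finset Filter

namespace H630GI

open H630VC H630XR

/-- formulas that consist of `k` blocks -/
abbrev BF (k b K : ℕ) : Type := Fin k → Finset (Cl (Fin b) K)

/-- the inputs: the bits that tell whether a clause belongs to a block, and real constants -/
def blkInputs (k b K : ℕ) : Set (BF k b K → ℝ) :=
  {f | (∃ (i : Fin k) (c : Cl (Fin b) K), f = fun F => if c ∈ F i then 1 else 0) ∨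
    ∃ a : ℝ, f = fun _ => a}

variable {k b K : ℕ}

/-- the first `i` blocks contain all clauses satisfied by `y` in the parity sense -/
noncomputable def ctx (y : Fin k → Fin b → Bool) (i : ℕ) : BF k b K :=
  fun j => if j.1 < i then oddFormula (y j) else ∅

/-- the same with another formula in block `i` -/
noncomputable def upd (y : Fin k → Fin b → Bool) (i : Fin k) (F : Finset (Cl (Fin b) K)) :
    BF k b K := Function.update (ctx y i.1) i F

theorem upd_empty (y : Fin k → Fin b → Bool) (i : Fin k) :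
    (upd y i ∅ : BF k b K) = ctx y i.1 := by
  unfold upd
  have : (∅ : Finset (Cl (Fin b) K)) = ctx y i.1 i := by simp [ctx]
  rw [this]
  exact Function.update_eq_self i _

theorem upd_odd (y : Fin k → Fin b → Bool) (i : Fin k) :
    (upd y i (oddFormula (y i)) : BF k b K) = ctx y (i.1 + 1) := by
  funext j
  unfold upd ctx
  by_cases h : j = i
  · subst h; simp
  · rw [Function.update_of_ne h]
    have h2 : j.1 ≠ i.1 := fun h' => h (Fin.ext h')
    by_cases h3 : j.1 < i.1
    · rw [if_pos h3, if_pos (by omega)]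
    · rw [if_neg h3, if_neg (by omega)]

theorem upd_update (y : Fin k → Fin b → Bool) (i : Fin k) (z : Fin b → Bool)
    (F : Finset (Cl (Fin b) K)) : upd (Function.update y i z) i F = upd y i F := by
  unfold upd
  congr 1
  funext j
  unfold ctx
  by_cases h : j.1 < i.1
  · rw [if_pos h, if_pos h, Function.update_of_ne (by rintro rfl; omega)]
  · rw [if_neg h, if_neg h]

theorem cnf_mono (f : Finset (Cl (Fin b) K) → ℝ) (hf : f ∈ cnfInputs (Fin b) K) : Monotone f := by
  rcases hf with ⟨c, rfl⟩ | ⟨a, rfl⟩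
  · intro F G hFG
    simp only
    split_ifs with h1 h2 h2
    · exact le_rfl
    · exact absurd (hFG h1) h2
    · norm_num
    · exact le_rfl
  · exact monotone_const

theorem upd_inputs (y : Fin k → Fin b → Bool) (i : Fin k) (f : BF k b K → ℝ)
    (hf : f ∈ blkInputs k b K) : (fun F => f (upd y i F)) ∈ cnfInputs (Fin b) K := by
  rcases hf with ⟨j, c, rfl⟩ | ⟨a, rfl⟩
  · by_cases h : j = i
    · subst h
      refine Or.inl ⟨c, ?_⟩
      funext F
      have e : upd y j F j = F := by simp [upd]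
      by_cases hc : c ∈ F <;> simp [e, hc]
    · refine Or.inr ⟨if c ∈ (ctx y i.1 : BF k b K) j then 1 else 0, ?_⟩
      funext F
      have e : upd y i F j = ctx y i.1 j := by simp [upd, Function.update_of_ne h]
      simp only [e]
  · exact Or.inr ⟨a, rfl⟩

theorem ctx_inputs (y : Fin k → Fin b → Bool) (i : ℕ) (f : BF k b K → ℝ)
    (hf : f ∈ blkInputs k b K) : f (ctx y i) ≤ f (ctx y (i + 1)) := by
  rcases hf with ⟨j, c, rfl⟩ | ⟨a, rfl⟩
  · have hsub : (ctx y i : BF k b K) j ⊆ ctx y (i + 1) j := by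
      unfold ctx
      by_cases h : j.1 < i
      · rw [if_pos h, if_pos (by omega)]
      · rw [if_neg h]; exact empty_subset _
    simp only
    split_ifs with h1 h2 h2
    · exact le_rfl
    · exact absurd (hsub h1) h2
    · norm_num
    · exact le_rfl
  · exact le_rfl

/-- resampling a coordinate -/
theorem resample {Z : Type*} [Fintype Z] [Nonempty Z] (i : Fin k) (Φ : (Fin k → Z) → Z → ℝ)
    (hΦ : ∀ y z w, Φ (Function.update y i z) w = Φ y w) :
    avg (fun y : Fin k → Z => avg fun z => Φ y z) = avg fun y : Fin k → Z => Φ y (y i) := by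
  unfold avg
  have h1 : ∑ y : Fin k → Z, ∑ z : Z, Φ y z = Fintype.card Z * ∑ y : Fin k → Z, Φ y (y i) := by
    have h2 : ∑ p : (Fin k → Z) × Z, Φ p.1 p.2 = ∑ p : (Fin k → Z) × Z, Φ p.1 (p.1 i) := by
      let e : (Fin k → Z) × Z → (Fin k → Z) × Z := fun p => (Function.update p.1 i p.2, p.1 i)
      have he : Function.Involutive e := by
        rintro ⟨y, z⟩
        simp [e]
      rw [← Function.Bijective.sum_comp (he.bijective) fun p : (Fin k → Z) × Z => Φ p.1 (p.1 i)]
      refine Finset.sum_congr rfl fun p _ => ?_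
      simp [e, hΦ]
    rw [Fintype.sum_prod_type, Fintype.sum_prod_type] at h2
    simp only [sum_const, card_univ, nsmul_eq_mul] at h2
    rw [h2, ← Finset.mul_sum]
  have hZ : (Fintype.card Z : ℝ) ≠ 0 := by
    have := Fintype.card_pos (α := Z)
    positivity
  rw [← Finset.sum_div, h1]
  field_simp

/-- the dichotomy, in the form in which it is used -/
theorem dich_ind (K : ℕ) (hK : 1 ≤ K) (δ ν : ℝ) (hν : 0 < ν) (h : (3 * K + 1) * ν < δ) :
    ∃ N : ℕ, ∀ b : ℕ, N ≤ b → ∀ m : ℕ, (m : ℝ) ≤ (b : ℝ) ^ ((K : ℝ) / 2 - δ) →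
      ∀ l : List (Finset (Cl (Fin b) K) → ℝ), Prog (cnfInputs (Fin b) K) l →
      (l.length : ℝ) ≤ 2 ^ ((b : ℝ) ^ ν) → ∀ f ∈ l,
      avg (fun ω : Fin m → Cl (Fin b) K => ind (1 ≤ f (univ.image ω))) ≤
        (b : ℝ) ^ (-ν) + avg fun z : Fin b → Bool => ind (1 ≤ f (oddFormula z)) := by
  obtain ⟨N, hN⟩ := dichotomy K hK δ ν hν h
  refine ⟨max N 1, fun b hb m hm l hl hlen f hf => ?_⟩
  have hb1 : 1 ≤ b := (le_max_right _ _).trans hb
  have hbR : (1 : ℝ) ≤ b := by exact_mod_cast hb1
  have hb0 : (0 : ℝ) < b := by linarith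
  have hD0 : 0 < (Fintype.card (Cl (Fin b) K) : ℝ) := by
    rw [card_cl]; push_cast; positivity
  have hcω : (Fintype.card (Fin m → Cl (Fin b) K) : ℝ) =
      (Fintype.card (Cl (Fin b) K) : ℝ) ^ m := by
    rw [Fintype.card_fun, Fintype.card_fin]; push_cast; rfl
  have hcz : (Fintype.card (Fin b → Bool) : ℝ) = 2 ^ b := by
    rw [Fintype.card_fun, Fintype.card_fin, Fintype.card_bool]; push_cast; rfl
  rcases hN b ((le_max_left _ _).trans hb) m hm l hl hlen f hf with h1 | h1
  · have h2 : avg (fun ω : Fin m → Cl (Fin b) K => ind (1 ≤ f (univ.image ω))) ≤ 1 := by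
      have hne : Nonempty (Fin m → Cl (Fin b) K) := ⟨fun _ _ => (⟨0, hb1⟩, true)⟩
      calc _ ≤ avg (fun _ : Fin m → Cl (Fin b) K => (1 : ℝ)) := avg_mono fun _ => ind_le_one _
        _ = 1 := avg_const _
    have h3 : avg (fun z : Fin b → Bool => ind (¬ 1 ≤ f (oddFormula z))) ≤ (b : ℝ) ^ (-ν) := by
      rw [avg_ind, hcz, div_le_iff₀ (by positivity)]
      refine h1.trans (mul_le_mul_of_nonneg_right ?_ (by positivity))
      rw [Real.rpow_neg (by norm_num), Real.rpow_neg hb0.le]
      exact inv_anti₀ (by positivity) (le_two_rpow _ (by positivity))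
    have h4 : avg (fun z : Fin b → Bool => ind (1 ≤ f (oddFormula z)) +
        ind (¬ 1 ≤ f (oddFormula z))) = 1 := by
      have : (fun z : Fin b → Bool => ind (1 ≤ f (oddFormula z)) +
        ind (¬ 1 ≤ f (oddFormula z))) = fun _ => (1 : ℝ) := by
        funext z
        unfold ind
        by_cases hz : 1 ≤ f (oddFormula z)
        · simp [hz]
        · simp [hz]
      rw [this]
      exact avg_const _
    rw [avg_add] at h4
    linarith
  · have h2 : avg (fun ω : Fin m → Cl (Fin b) K => ind (1 ≤ f (univ.image ω))) ≤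
        (b : ℝ) ^ (-ν) := by
      rw [avg_ind, hcω, div_le_iff₀ (by positivity)]
      exact h1
    have h3 : 0 ≤ avg fun z : Fin b → Bool => ind (1 ≤ f (oddFormula z)) := by
      calc (0 : ℝ) = avg (fun _ : Fin b → Bool => (0 : ℝ)) := (avg_const _).symm
        _ ≤ _ := avg_mono fun _ => ind_nonneg _
    linarith

/-- one step of the walk, for one circuit -/
theorem step (κ S : ℝ) (m : ℕ)
    (hd : ∀ l : List (Finset (Cl (Fin b) K) → ℝ), Prog (cnfInputs (Fin b) K) l →
      (l.length : ℝ) ≤ S → ∀ f ∈ l,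
      avg (fun ω : Fin m → Cl (Fin b) K => ind (1 ≤ f (univ.image ω))) ≤
        κ + avg fun z : Fin b → Bool => ind (1 ≤ f (oddFormula z)))
    {l : List (BF k b K → ℝ)} {q : List (List ((BF k b K → ℝ) × ℝ))}
    (hp : FProg (blkInputs k b K) l q) {f : BF k b K → ℝ} (hf : f ∈ l)
    (hsize : ((l.length + wires q + 2 : ℕ) : ℝ) ≤ S) (y : Fin k → Fin b → Bool) (i : Fin k) :
    avg (fun ω : Fin m → Cl (Fin b) K => ind (1 ≤ f (upd y i (univ.image ω)))) ≤
      κ + avg fun z : Fin b → Bool => (ind (Flips q (ctx y i.1) (upd y i (oddFormula z))) +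
        ind (1 ≤ f (upd y i (oddFormula z)))) := by
  obtain ⟨l', D, g1, g2, g3, g4, g5, g6, g7⟩ := frozen (inp' := cnfInputs (Fin b) K)
    (fun F => upd y i F) (upd_inputs y i) cnf_mono (fun c => Or.inr ⟨c, rfl⟩) hp
  obtain ⟨f', hf', hff⟩ := g7 f hf
  let φ : ℝ → ℝ → ℝ := fun x y => if 1 ≤ y then max x 1 else x
  have hφ : Mono2 φ := by
    intro x x' y y' hx hy
    simp only [φ]
    split_ifs with e1 e2 e2
    · exact max_le_max hx le_rfl
    · exact absurd (e1.trans hy) e2
    · exact hx.trans (le_max_left _ _)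
    · exact hx
  have hE : ∀ H, 1 ≤ φ (f' H) (D H) ↔
      (Flips q (ctx y i.1) (upd y i H) ∨
        (¬ Flips q (ctx y i.1) (upd y i H) ∧ 1 ≤ f (upd y i H))) := by
    intro H
    have hD := g6 H
    have hb : upd y i (⊥ : Finset (Cl (Fin b) K)) = ctx y i.1 := upd_empty y i
    simp only [hb] at hD
    rcases g4 H with h0 | h0
    · have hnf : ¬ Flips q (ctx y i.1) (upd y i H) := by
        rw [← hD, h0]; norm_num
      simp only [φ, h0, hff H h0, hnf]
      norm_num
    · have hfl : Flips q (ctx y i.1) (upd y i H) := hD.1 h0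
      simp only [φ, h0, hfl]
      simp
  have hlen : ((((fun H => φ (f' H) (D H)) :: l').length : ℕ) : ℝ) ≤ S := by
    rw [List.length_cons, g3]
    exact hsize
  have hcore := hd _ (Prog.gate (φ := φ) g1 hφ hf' g2) hlen
    (fun H => φ (f' H) (D H)) List.mem_cons_self
  refine le_trans (avg_mono fun ω => ?_) (hcore.trans (add_le_add_right (avg_mono fun z => ?_) κ))
  · apply ind_mono
    intro hβ
    rw [hE]
    by_cases hfl : Flips q (ctx y i.1) (upd y i (univ.image ω))
    · exact Or.inl hfl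
    · exact Or.inr ⟨hfl, hβ⟩
  · have n1 := ind_nonneg (Flips q (ctx y i.1) (upd y i (oddFormula z)))
    have n2 := ind_nonneg (1 ≤ f (upd y i (oddFormula z)))
    by_cases hθ : 1 ≤ φ (f' (oddFormula z)) (D (oddFormula z))
    · have h1 : ind (1 ≤ φ (f' (oddFormula z)) (D (oddFormula z))) = 1 := if_pos hθ
      rcases (hE _).1 hθ with h' | h'
      · have : ind (Flips q (ctx y i.1) (upd y i (oddFormula z))) = 1 := if_pos h'
        linarith
      · have : ind (1 ≤ f (upd y i (oddFormula z))) = 1 := if_pos h'.2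
        linarith
    · have h1 : ind (1 ≤ φ (f' (oddFormula z)) (D (oddFormula z))) = 0 := if_neg hθ
      linarith

/-- few flips along the walk -/
theorem sum_flips {l : List (BF k b K → ℝ)} {q : List (List ((BF k b K → ℝ) × ℝ))}
    (hp : FProg (blkInputs k b K) l q) (y : Fin k → Fin b → Bool) :
    ∑ i : Fin k, ind (Flips q (ctx y i.1 : BF k b K) (ctx y (i.1 + 1))) ≤ (combos q : ℝ) := by
  have key : ∀ n : ℕ, ∑ i ∈ range n, ind (Flips q (ctx y i : BF k b K) (ctx y (i + 1))) ≤
      (lexRank q (ctx y n : BF k b K) : ℝ) := by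
    intro n
    induction n with
    | zero => simp
    | succ n ih =>
      rw [sum_range_succ]
      obtain ⟨h1, h2⟩ := lexRank_mono hp (ctx y n) (ctx y (n + 1)) (ctx_inputs y n)
      rcases lt_or_eq_of_le h1 with h | h
      · have h3 : ((lexRank q (ctx y n : BF k b K) + 1 : ℕ) : ℝ) ≤
            (lexRank q (ctx y (n + 1) : BF k b K) : ℝ) := by exact_mod_cast h
        push_cast at h3
        have := ind_le_one (Flips q (ctx y n : BF k b K) (ctx y (n + 1)))
        linarith
      · have h3 : ind (Flips q (ctx y n : BF k b K) (ctx y (n + 1))) = 0 := if_neg (h2 h).1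
        rw [h3, add_zero, ← h]
        exact ih
  have h1 := key k
  rw [Fin.sum_univ_eq_sum_range
    (fun i => ind (Flips q (ctx y i : BF k b K) (ctx y (i + 1)))) k]
  refine h1.trans ?_
  have h2 := lexRank_lt q (ctx y k : BF k b K)
  exact_mod_cast h2.le

/-- the walk, for one circuit -/
theorem walk_one (κ S : ℝ) (m : ℕ)
    (hd : ∀ l : List (Finset (Cl (Fin b) K) → ℝ), Prog (cnfInputs (Fin b) K) l →
      (l.length : ℝ) ≤ S → ∀ f ∈ l,
      avg (fun ω : Fin m → Cl (Fin b) K => ind (1 ≤ f (univ.image ω))) ≤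
        κ + avg fun z : Fin b → Bool => ind (1 ≤ f (oddFormula z)))
    {l : List (BF k b K → ℝ)} {q : List (List ((BF k b K → ℝ) × ℝ))}
    (hp : FProg (blkInputs k b K) l q) {f : BF k b K → ℝ} (hf : f ∈ l)
    (hsize : ((l.length + wires q + 2 : ℕ) : ℝ) ≤ S) :
    ∑ i : Fin k, avg (fun y : Fin k → Fin b → Bool =>
        avg (fun ω : Fin m → Cl (Fin b) K => ind (1 ≤ f (upd y i (univ.image ω))))) ≤
      k * κ + combos q + ∑ i : Fin k, avg (fun y : Fin k → Fin b → Bool =>
        ind (1 ≤ f (ctx y (i.1 + 1)))) := by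
  have h1 : ∀ i : Fin k, avg (fun y : Fin k → Fin b → Bool =>
        avg (fun ω : Fin m → Cl (Fin b) K => ind (1 ≤ f (upd y i (univ.image ω))))) ≤
      κ + avg fun y : Fin k → Fin b → Bool => (ind (Flips q (ctx y i.1) (ctx y (i.1 + 1))) +
        ind (1 ≤ f (ctx y (i.1 + 1)))) := by
    intro i
    have h2 := avg_mono (fun y : Fin k → Fin b → Bool => step κ S m hd hp hf hsize y i)
    refine h2.trans ?_
    rw [avg_add, avg_const]
    refine add_le_add_right (le_of_eq ?_) κ
    have h3 := resample (Z := Fin b → Bool) i (fun y z =>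
      ind (Flips q (ctx y i.1) (upd y i (oddFormula z))) +
        ind (1 ≤ f (upd y i (oddFormula z)))) ?_
    · rw [h3]
      simp only [upd_odd]
    · intro y z w
      have e : (ctx (Function.update y i z) i.1 : BF k b K) = ctx y i.1 := by
        rw [← upd_empty, ← upd_empty, upd_update]
      simp only [upd_update, e]
  have h4 := Finset.sum_le_sum fun i (_ : i ∈ (univ : Finset (Fin k))) => h1 i
  refine h4.trans ?_
  rw [Finset.sum_add_distrib, sum_const, card_univ, Fintype.card_fin, nsmul_eq_mul]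
  have h5 : ∑ i : Fin k, avg (fun y : Fin k → Fin b → Bool =>
      (ind (Flips q (ctx y i.1 : BF k b K) (ctx y (i.1 + 1))) + ind (1 ≤ f (ctx y (i.1 + 1))))) =
      avg (fun y : Fin k → Fin b → Bool =>
        ∑ i : Fin k, ind (Flips q (ctx y i.1 : BF k b K) (ctx y (i.1 + 1)))) +
      ∑ i : Fin k, avg (fun y : Fin k → Fin b → Bool => ind (1 ≤ f (ctx y (i.1 + 1)))) := by
    rw [avg_sum, ← Finset.sum_add_distrib]
    refine Finset.sum_congr rfl fun i _ => avg_add _ _
  rw [h5]
  have h6 : avg (fun y : Fin k → Fin b → Bool =>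
        ∑ i : Fin k, ind (Flips q (ctx y i.1 : BF k b K) (ctx y (i.1 + 1)))) ≤ combos q := by
    calc _ ≤ avg (fun _ : Fin k → Fin b → Bool => (combos q : ℝ)) :=
          avg_mono fun y => sum_flips hp y
      _ = _ := avg_const _
  linarith

end H630GI
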