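import Pool.Agent.H630GI.Pad
import Pool.Agent.H630GI.Walk

/-! From parity systems to pairs of graphs (helper630) -/

open scoped Classical
open Finset

namespace H630GI

open H630VC H630XR

variable {k b K : ℕ}

/-- a bit as an element of the field with two elements -/
def bz (a : Bool) : ZMod 2 := if a then 1 else 0

/-- the parity of a tuple of bits -/
def par (a : Fin K → Bool) : ZMod 2 := ∑ j, bz (a j)

theorem par_xor (a a' : Fin K → Bool) : par (fun j => xor (a j) (a' j)) = par a + par a' := by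
  unfold par
  rw [← sum_add_distrib]
  refine sum_congr rfl fun j _ => ?_
  show bz (xor (a j) (a' j)) = _
  cases a j <;> cases a' j <;> decide

/-- the right-hand side of the equation of a clause -/
def vl (c : Cl (Fin b) K) : ZMod 2 := 1 + K + ∑ j, bz (c j).2

theorem oddSat_iff (x : Fin b → Bool) (c : Cl (Fin b) K) :
    OddSat x c ↔ par (fun j => x (c j).1) = vl c := by
  unfold OddSat
  rw [← ZMod.natCast_eq_one_iff_odd, card_filter]
  have h1 : ((∑ i : Fin K, if x (c i).1 = (c i).2 then 1 else 0 : ℕ) : ZMod 2) =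
      K + par (fun j => x (c j).1) + ∑ j, bz (c j).2 := by
    unfold par
    push_cast
    have h2 : (K : ZMod 2) = ∑ _j : Fin K, 1 := by simp
    rw [h2, ← sum_add_distrib, ← sum_add_distrib]
    refine sum_congr rfl fun j _ => ?_
    cases x (c j).1 <;> cases (c j).2 <;> decide
  rw [h1]
  unfold vl
  have h3 : ∀ p q r : ZMod 2, p + q + r = 1 ↔ q = 1 + p + r := by decide
  exact h3 _ _ _

/-- the vertices of the variables -/
abbrev Pt (k b : ℕ) : Type := Fin k × Fin b × Bool

/-- the vertices of the clauses -/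
abbrev Qt (k b K : ℕ) : Type := Fin k × Cl (Fin b) K × (Fin K → Bool)

/-- the edges between variables and clauses -/
def rl (w : Cl (Fin b) K → ZMod 2) (F : BF k b K) (p : Pt k b) (q : Qt k b K) : Prop :=
  q.2.1 ∈ F q.1 ∧ p.1 = q.1 ∧ par q.2.2 = w q.2.1 ∧ (∃ j, (q.2.1 j).1 = p.2.1) ∧
    ∀ j, (q.2.1 j).1 = p.2.1 → q.2.2 j = p.2.2

/-- bipartite graphs -/
def bip {P Q : Type*} (r : P → Q → Prop) : SimpleGraph (P ⊕ Q) where
  Adj u v := match u, v with
    | .inl _, .inl _ => False
    | .inl p, .inr q => r p q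
    | .inr q, .inl p => r p q
    | .inr _, .inr _ => False
  symm := ⟨by
    rintro (a | x) (a' | x') h
    · exact h
    · exact h
    · exact h
    · exact h⟩
  loopless := ⟨by
    rintro (a | x) h
    · exact h
    · exact h⟩

/-- the graph of a formula -/
abbrev gr (w : Cl (Fin b) K → ZMod 2) (F : BF k b K) : SimpleGraph (Pt k b ⊕ Qt k b K) :=
  bip (rl w F)

/-- the colours -/
abbrev Co (k b K : ℕ) : Type := Fin k × (Fin b ⊕ Cl (Fin b) K)

/-- the colour of a vertex -/
def cl : Pt k b ⊕ Qt k b K → Co k b K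
  | .inl p => (p.1, .inl p.2.1)
  | .inr q => (q.1, .inr q.2.1)

/-- the colour as a number -/
noncomputable def tc (x : Pt k b ⊕ Qt k b K) : ℕ := (Fintype.equivFin (Co k b K) (cl x)).val

theorem tc_lt (x : Pt k b ⊕ Qt k b K) : tc x < Fintype.card (Co k b K) :=
  (Fintype.equivFin (Co k b K) (cl x)).2

theorem tc_inj {x y : Pt k b ⊕ Qt k b K} (h : tc x = tc y) : cl x = cl y :=
  (Fintype.equivFin (Co k b K)).injective (Fin.ext h)

/-- the bound for the degrees -/
def db (b K : ℕ) : ℕ := Fintype.card (Cl (Fin b) K) * 2 ^ K + 2 * b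

theorem dg_gr (w : Cl (Fin b) K → ZMod 2) (F : BF k b K) (x : Pt k b ⊕ Qt k b K) :
    dg (gr w F) x ≤ db b K := by
  unfold dg db
  rcases x with p | q
  · have h : (univ.filter fun y => (gr w F).Adj (Sum.inl p) y) ⊆
        (univ : Finset (Cl (Fin b) K × (Fin K → Bool))).image
          fun z => (Sum.inr (p.1, z.1, z.2) : Pt k b ⊕ Qt k b K) := by
      intro y hy
      have hy := (mem_filter.1 hy).2
      rcases y with p' | q'
      · exact hy.elim
      · obtain ⟨-, h2, -⟩ := hy
        refine mem_image.2 ⟨(q'.2.1, q'.2.2), mem_univ _, ?_⟩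
        rw [h2]
    refine (card_le_card h).trans (card_image_le.trans ?_)
    have e : Fintype.card (Fin K → Bool) = 2 ^ K := by
      rw [Fintype.card_fun, Fintype.card_bool, Fintype.card_fin]
    rw [card_univ, Fintype.card_prod, e]
    omega
  · have h : (univ.filter fun y => (gr w F).Adj (Sum.inr q) y) ⊆
        (univ : Finset (Fin b × Bool)).image
          fun z => (Sum.inl (q.1, z.1, z.2) : Pt k b ⊕ Qt k b K) := by
      intro y hy
      have hy := (mem_filter.1 hy).2
      rcases y with p' | q'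
      · obtain ⟨-, h2, -⟩ := hy
        refine mem_image.2 ⟨(p'.2.1, p'.2.2), mem_univ _, ?_⟩
        rw [← h2]
      · exact hy.elim
    refine (card_le_card h).trans (card_image_le.trans ?_)
    rw [card_univ, Fintype.card_prod, Fintype.card_bool, Fintype.card_fin]
    omega

/-- isomorphisms give solutions -/
theorem sat_of_hom (hK : 1 ≤ K) (F : BF k b K) (ψ : Pt k b ⊕ Qt k b K → Pt k b ⊕ Qt k b K)
    (hc : ∀ x, cl (ψ x) = cl x) (h : ∀ x x', (gr 0 F).Adj x x' → (gr vl F).Adj (ψ x) (ψ x')) (i : Fin k) :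
    ∃ z : Fin b → Bool, ∀ c ∈ F i, OddSat z c := by
  have h1 : ∀ v : Fin b, ∃ α : Bool, ψ (Sum.inl (i, v, false)) = Sum.inl (i, v, α) := by
    intro v
    have h2 := hc (Sum.inl (i, v, false))
    rcases h3 : ψ (Sum.inl (i, v, false)) with ⟨i', v', α⟩ | ⟨i', c', a'⟩
    · rw [h3] at h2
      simp only [cl, Prod.mk.injEq, Sum.inl.injEq] at h2
      exact ⟨α, by rw [h2.1, h2.2]⟩
    · rw [h3] at h2
      simp [cl] at h2
  choose z hz using h1
  refine ⟨z, fun c hcF => ?_⟩
  obtain ⟨a', ha'⟩ : ∃ a' : Fin K → Bool,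
      ψ (Sum.inr (i, c, fun _ => false)) = Sum.inr (i, c, a') := by
    have h2 := hc (Sum.inr (i, c, fun _ => false))
    rcases h3 : ψ (Sum.inr (i, c, fun _ => false)) with ⟨i', v', α⟩ | ⟨i', c', a'⟩
    · rw [h3] at h2
      simp [cl] at h2
    · rw [h3] at h2
      simp only [cl, Prod.mk.injEq, Sum.inr.injEq] at h2
      exact ⟨a', by rw [h2.1, h2.2]⟩
  have h4 : ∀ j : Fin K, par a' = vl c ∧ a' j = z (c j).1 := by
    intro j
    have h5 : (gr 0 F).Adj (Sum.inl (i, (c j).1, false)) (Sum.inr (i, c, fun _ => false)) := by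
      refine ⟨hcF, rfl, ?_, ⟨j, rfl⟩, fun _ _ => rfl⟩
      simp [par, bz]
    have h6 := h _ _ h5
    rw [hz, ha'] at h6
    exact ⟨h6.2.2.1, h6.2.2.2.2 j rfl⟩
  rw [oddSat_iff]
  have h7 : (fun j => z (c j).1) = a' := funext fun j => ((h4 j).2).symm
  rw [h7]
  exact (h4 ⟨0, hK⟩).1

/-- solutions give isomorphisms -/
theorem iso_of_sat (F : BF k b K) (z : Fin k → Fin b → Bool)
    (hz : ∀ i, ∀ c ∈ F i, OddSat (z i) c) :
    ∃ ψ : (Pt k b ⊕ Qt k b K) ≃ (Pt k b ⊕ Qt k b K), (∀ x, cl (ψ x) = cl x) ∧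
      ∀ x x', (gr vl F).Adj (ψ x) (ψ x') ↔ (gr 0 F).Adj x x' := by
  let g : Pt k b ⊕ Qt k b K → Pt k b ⊕ Qt k b K := fun x => match x with
    | .inl p => .inl (p.1, p.2.1, xor p.2.2 (z p.1 p.2.1))
    | .inr q => .inr (q.1, q.2.1, fun j => xor (q.2.2 j) (z q.1 (q.2.1 j).1))
  have hg : Function.Involutive g := by
    rintro (⟨i, v, α⟩ | ⟨i, c, a⟩)
    · simp [g]
    · simp [g]
  have key : ∀ (p : Pt k b) (q : Qt k b K),
      rl vl F (p.1, p.2.1, xor p.2.2 (z p.1 p.2.1))
        (q.1, q.2.1, fun j => xor (q.2.2 j) (z q.1 (q.2.1 j).1)) ↔ rl 0 F p q := by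
    rintro ⟨i, v, α⟩ ⟨i', c, a⟩
    unfold rl
    simp only
    refine and_congr_right fun h1 => and_congr_right fun h2 => ?_
    subst h2
    have h3 := (oddSat_iff (z i) c).1 (hz i c h1)
    rw [par_xor a fun j => z i (c j).1, h3]
    refine and_congr ?_ (and_congr_right fun _ => ?_)
    · simp
    · refine forall_congr' fun j => ?_
      constructor
      · intro h4 h5
        have h6 := h4 h5
        rw [h5] at h6
        simpa using h6
      · intro h4 h5
        rw [h4 h5, h5]
  refine ⟨hg.toPerm g, ?_, ?_⟩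
  · rintro (p | q)
    · rfl
    · rfl
  · rintro (p | q) (p' | q')
    · exact Iff.rfl
    · exact key p q'
    · exact key p' q
    · exact Iff.rfl

end H630GI
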